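import Pool.Agent.Helper25_CN3.Stmts

/-!
# CN3: module S_STB
-/

namespace Pool.Agent.CN3.H83

open Pool.Agent.H25Cong Pool.Agent.CON Pool.Agent.CN2 Pool.Agent.CN3

variable {n : ℕ}

theorem av_mem (a : Module.Basis (Fin (n + 1)) ℝ (V n)) (k : ℕ) : av a k ∈ LL a := by
  unfold av
  split_ifs with h
  · exact Submodule.subset_span ⟨_, rfl⟩
  · exact Submodule.zero_mem _

theorem sum_mem_LL (a : Module.Basis (Fin (n + 1)) ℝ (V n)) (s : Finset ℕ) (z : ℕ → ℤ) :
    ∑ k ∈ s, ((z k : ℤ) : ℝ) • av a k ∈ LL a := by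
  refine Submodule.sum_mem _ fun k _ => ?_
  rw [Int.cast_smul_eq_zsmul]
  exact Submodule.smul_mem _ _ (av_mem a k)

theorem s_stb (h1 : V_HYP) (h2 : S_TRN) : S_STB := by
  intro n a G hG hH hT g hg hga
  obtain ⟨-, h00, h11, h01, hk, hex⟩ := h1 n a G hG hH
  have hL : g (av a 1) ∈ LL a := (hg.2 _).2 (av_mem a 1)
  obtain ⟨z, hz, -, hz0⟩ := hex _ hL
  set m : V n := ∑ k ∈ Finset.Ico 2 (n + 1), ((z k : ℤ) : ℝ) • av a k with hm
  have h10 : B (av a 1) (av a 0) = -1 := by rw [B_comm]; exact h01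
  have hz1 : ((z 1 : ℤ) : ℝ) = 1 := by
    have h3 : B (g (av a 1)) (av a 0) = -1 := by
      conv_lhs => rw [← hga]
      rw [hg.1, h10]
    rw [hz0] at h3
    linarith
  have hm0 : B m (av a 0) = 0 := by
    rw [hm, B_sum_left]
    refine Finset.sum_eq_zero fun k hk2 => ?_
    rw [Finset.mem_Ico] at hk2
    rw [B_smul_left, (hk k hk2.1).1, mul_zero]
  have hm1 : B m (av a 1) = 0 := by
    rw [hm, B_sum_left]
    refine Finset.sum_eq_zero fun k hk2 => ?_
    rw [Finset.mem_Ico] at hk2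
    rw [B_smul_left, (hk k hk2.1).2, mul_zero]
  have hmL : m ∈ LL a := sum_mem_LL a _ z
  rw [hz1, one_smul] at hz
  have hmm : ((z 0 : ℤ) : ℝ) = B m m / 2 := by
    have h3 : B (g (av a 1)) (g (av a 1)) = 0 := by rw [hg.1, h11]
    have h0m : B (av a 0) m = 0 := by rw [B_comm]; exact hm0
    have h1m : B (av a 1) m = 0 := by rw [B_comm]; exact hm1
    rw [hz] at h3
    simp only [B_add_left, B_add_right, B_smul_left, B_smul_right, h00, h11, h01, h10, hm0, hm1,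
      h0m, h1m] at h3
    linarith
  have hn0 : B (-m) (av a 0) = 0 := by rw [B_neg_left, hm0, neg_zero]
  have hE := h2 n a G hG hH hT (-m) (Submodule.neg_mem _ hmL) h00 hn0
  have e0 : E (av a 0) (-m) h00 hn0 (av a 0) = av a 0 := by
    rw [E_apply, h00, B_neg_right, B_comm, hm0]
    simp
  have e1 : E (av a 0) (-m) h00 hn0 (av a 1) = g (av a 1) := by
    rw [E_apply, hz, h10, B_neg_right, B_neg_left, B_neg_right, B_comm (av a 1) m, hm1, hmm]
    ext i
    simp only [Pi.add_apply, Pi.sub_apply, Pi.smul_apply, Pi.neg_apply, smul_eq_mul]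
    ring
  refine ⟨(E (av a 0) (-m) h00 hn0)⁻¹, (RefL (LL a)).inv_mem hE, ?_, ?_⟩
  · rw [hga]
    exact (congrArg (fun y => (E (av a 0) (-m) h00 hn0)⁻¹ y) e0).symm.trans (inv_ap _ _)
  · exact (congrArg (fun y => (E (av a 0) (-m) h00 hn0)⁻¹ y) e1).symm.trans (inv_ap _ _)

end Pool.Agent.CN3.H83
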