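import Pool.Agent.Helper25_CN3.Stmts

/-!
# CN3: module W_AUT
-/

namespace Pool.Agent.CN3.H83

open Pool.Agent.H25Cong Pool.Agent.CON Pool.Agent.CN2 Pool.Agent.CN3

theorem getD_map_range (π : ℕ → ℕ) {m j : ℕ} (hj : j < m) :
    ((List.range m).map π).getD j 0 = π j := by
  rw [List.getD_eq_getElem?_getD, List.getElem?_map, List.getElem?_range hj]
  rfl

theorem aut_aux (G : List (List ℤ)) (q : ℕ) (ok : List ℕ → Bool) (π : ℕ → ℕ)
    (hπ : ∀ i < q, π i < q)
    (hG : ∀ i < q, ∀ j < q, ent G (2 + i) (2 + j) = ent G (2 + π i) (2 + π j)) :
    ∀ k m : ℕ, m + k = q → autB G q ok k ((List.range m).map π) = true →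
      ok ((List.range q).map π) = true := by
  intro k
  induction k with
  | zero =>
    intro m hm h
    rw [add_zero] at hm
    subst hm
    exact h
  | succ k ih =>
    intro m hm h
    rw [autB, List.all_eq_true] at h
    have hmq : m < q := by omega
    have h1 := h (π m) (List.mem_range.2 (hπ m hmq))
    rw [List.length_map, List.length_range] at h1
    have h2 : ((List.range m).all fun j =>
        decide (ent G (2 + m) (2 + j) = ent G (2 + π m) (2 + ((List.range m).map π).getD j 0)))
        = true := by
      rw [List.all_eq_true]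
      intro j hj
      rw [List.mem_range] at hj
      rw [decide_eq_true_eq, getD_map_range π hj]
      exact hG m hmq j (by omega)
    rw [h2] at h1
    simp only [Bool.not_true, Bool.false_or] at h1
    apply ih (m + 1) (by omega)
    rw [List.range_succ, List.map_append]
    exact h1

theorem w_aut : W_AUT := by
  intro G q ok h π hπ hG
  exact aut_aux G q ok π hπ hG q 0 (by omega) h

end Pool.Agent.CN3.H83
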